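import Mathlib
import Pool.Agent.N108.ZZ.HH

set_option autoImplicit false

/-!
# The Harbourne-Hirschowitz conjecture for all systems whose standard part `M` has `K M ≤ 5`

Any number of general points, any degree and any multiplicities. Let `D` be special. Then `D` is
`(-1)`-special, or `D = ∑ N a C a + M` with pairwise disjoint `(-1)`-curves `C a`, `N a > 0`,
`M C a = 0`, where `K M = K D + ∑ N a ≥ 6`, and finitely many quadratic transformations carry `M`
to a special standard class `(d'; w')` of the same dimension in which the sum of the multiplicities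
`w' i ≥ 2` is at least `3 d' + 6`.

So `D` is special if and only if it is `(-1)`-special as soon as `K D + ∑ N a ≤ 5`, for instance if
`K D ≤ 5` and `D C ≥ 0` for all `(-1)`-curves `C`.
-/

namespace Pool.Agent.Results.MP_6b2d39_ag.CanonicalDegreeFive

open MvPolynomial Pool.Agent.TH167 Pool.Agent.TH167.SHDefs

/-- The class is standard. -/
def Standard {n : ℕ} (d : ℕ) (w : Fin n → ℕ) : Prop :=
  ∀ i j k : Fin n, i ≠ j → i ≠ k → j ≠ k → w i + w j + w k ≤ d

theorem result (n : ℕ) (hn : 4 ≤ n) (d : ℕ) (w : Fin n → ℕ) :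
    ∃ F : MvPolynomial (Fin n × Fin 2) ℂ, F ≠ 0 ∧
      ∀ P : Fin n → Fin 2 → ℂ, MvPolynomial.eval (fun ij : Fin n × Fin 2 => P ij.1 ij.2) F ≠ 0 →
        (MinusOneSpecial P d w → Special P d w) ∧
        (Special P d w → MinusOneSpecial P d w ∨
          ∃ (d'' : ℕ) (w'' : Fin n → ℕ) (k : ℕ) (G : Fin k → MvPolynomial (Fin 3) ℂ)
            (e : Fin k → ℕ) (u : Fin k → Fin n → ℕ) (N : Fin k → ℕ) (d' : ℕ) (w' : Fin n → ℕ),
            Decomp P d w d'' w'' G e u N ∧ 6 ≤ interK d w + ∑ a, (N a : ℤ) ∧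
            Relation.ReflTransGen Quadratic (d'', w'') (d', w') ∧ Standard d' w' ∧
            Special P d' w' ∧ dimL P d' w' = dimL P d w ∧
            3 * d' + 6 ≤ ∑ i, if 2 ≤ w' i then w' i else 0) := by
  obtain ⟨r, rfl⟩ : ∃ r, n = r + 4 := ⟨n - 4, by omega⟩
  obtain ⟨F, hF, hF'⟩ := Pool.Agent.N108.ZZ.hh_zz d w
  refine ⟨F, hF, fun P hP => ⟨fun h => ?_, fun hs => ?_⟩⟩
  · rw [SH.mspecial_conv] at h
    rw [SH.special_conv]
    exact h.special
  · rcases hF' P hP hs with h | ⟨d'', w'', k, C, e, u, N, d', w', h1, h2, h3, h4, h5, h6, h7⟩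
    · exact Or.inl h
    · refine Or.inr ⟨d'', w'', k, C, e, u, N, d', w', h1, ?_, h3, h4, h5, h6, h7⟩
      rw [← h2]
      have h8 := h7.trans (Pool.Agent.N108.ZZ.big_le w')
      unfold interK
      have h9 : ((3 * d' + 6 : ℕ) : ℤ) ≤ ((∑ i, w' i : ℕ) : ℤ) := by exact_mod_cast h8
      push_cast at h9
      linarith

end Pool.Agent.Results.MP_6b2d39_ag.CanonicalDegreeFive
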