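import Mathlib
import Pool.Agent.N388.EFW.Arb
import Pool.Agent.N388.EF.TEST2

set_option autoImplicit false

/-!
# The Harbourne-Hirschowitz conjecture at eleven points: the critical degrees divisible by three

Let `w i` be arbitrary multiplicities at 11 general points of the complex projective plane,
`W = ∑ w i`, `g = ⌊d / √11⌋`, `s = ∑ max (w i - g) 0` and `e = (3 + √11) / 2 * (d - √11 g) - s`. The
linear system of forms of degree `d` with these multiplicities is not special if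
* `√11 (2 d + 3) < 11 + 2 W` and `3` does not divide `d`, or `e < 0`, or `g ≥ 20` and
  `e < (3 √11 - 9) / 2` and `(10 + 3 √11) e + s < 10`,
* `√11 d < W`,
* `11 + 2 ∑ max (w i) b ≤ √11 (2 d + 3)` for some `b` with `w i ≤ b + 1` for all `i`.
-/

namespace Pool.Agent.Results.MP_6b2d39_ag.ElevenPointsCritical

open MvPolynomial

/-- Forms of degree `d` vanishing to order at least `w i` at the points `(P i 0 : P i 1 : 1)`. -/
noncomputable def forms {n : ℕ} (P : Fin n → Fin 2 → ℂ) (d : ℕ) (w : Fin n → ℕ) :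
    Submodule ℂ (MvPolynomial (Fin 3) ℂ) :=
  homogeneousSubmodule (Fin 3) ℂ d ⊓
    Submodule.restrictScalars ℂ
      (⨅ i : Fin n, (Ideal.span {X 0 - C (P i 0) * X 2, X 1 - C (P i 1) * X 2} :
        Ideal (MvPolynomial (Fin 3) ℂ)) ^ (w i))

/-- The system of the forms of degree `d` with multiplicities `w` at the points `P` is not special:
its vector space dimension is `max (0, (d + 2) (d + 1) / 2 - ∑ (w i + 1) (w i) / 2)`. -/
def NonSpecial {n : ℕ} (P : Fin n → Fin 2 → ℂ) (d : ℕ) (w : Fin n → ℕ) : Prop :=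
  (Module.finrank ℂ ↥(forms P d w) : ℤ) =
    max 0 (((d + 2).choose 2 : ℤ) - ∑ i, ((w i + 1).choose 2 : ℤ))

theorem nonSpecial_of {n : ℕ} {P : Fin n → Fin 2 → ℂ} {d : ℕ} {w : Fin n → ℕ}
    (h : Pool.Agent.H932R3.ExpDim ℂ w P d) : NonSpecial P d w := by
  unfold Pool.Agent.H932R3.ExpDim at h
  unfold NonSpecial forms
  rw [h]
  have e : ∑ i, ((w i + 1).choose 2 : ℤ) = ((∑ i, (w i + 1).choose 2 : ℕ) : ℤ) := by
    push_cast
    rfl
  rw [e]
  omega

theorem result (w : Fin 11 → ℕ) :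
    ∃ F : MvPolynomial (Fin 11 × Fin 2) ℂ, F ≠ 0 ∧
      ∀ P : Fin 11 → Fin 2 → ℂ, eval (fun ij : Fin 11 × Fin 2 => P ij.1 ij.2) F ≠ 0 →
        ∀ (d g s : ℕ) (e : ℝ), g = ⌊(d : ℝ) / √11⌋₊ → s = ∑ i, (w i - g) →
          e = (3 + √11) / 2 * (d - √11 * g) - s →
          ((√11 * (2 * d + 3) < 11 + 2 * ∑ i, (w i : ℝ) ∧
              (¬ 3 ∣ d ∨ e < 0 ∨
                (20 ≤ g ∧ e < (3 * √11 - 9) / 2 ∧ (10 + 3 * √11) * e + s < 10))) ∨
            √11 * d < ∑ i, (w i : ℝ) ∨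
            ∃ b : ℕ, (∀ i, w i ≤ b + 1) ∧
              11 + 2 * ∑ i, ((max (w i) b : ℕ) : ℝ) ≤ √11 * (2 * d + 3)) →
          NonSpecial P d w := by
  obtain ⟨F, hF, hF'⟩ := N388.EFW.expDim_arb11 N388.EF.t_TEST2 w
  refine ⟨F.map (algebraMap ℚ ℂ), H932R3.map_ne_zero_of hF, fun P hP d g s e hg hs he hd => ?_⟩
  rw [MvPolynomial.eval_map] at hP
  refine nonSpecial_of (hF' P hP d ?_)
  have hdft : N388.EFW.dft w d = e := by
    unfold N388.EFW.dft
    rw [he, ← hg, ← hs]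
  rcases hd with ⟨h1, h2⟩ | hd | hd
  · refine Or.inl ⟨h1, ?_⟩
    rcases h2 with h2 | h2 | ⟨h2, h3, h4⟩
    · exact Or.inl h2
    · refine Or.inr (Or.inl ?_)
      rw [hdft]
      exact h2
    · refine Or.inr (Or.inr ?_)
      rw [hdft, ← hg, ← hs]
      exact ⟨by omega, h3, h4⟩
  · exact Or.inr (Or.inl hd)
  · exact Or.inr (Or.inr hd)

end Pool.Agent.Results.MP_6b2d39_ag.ElevenPointsCritical
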